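import Mathlib

/-!
# Non-regular solutions of the three-dimensional queens problem
-/

namespace Pool.Agent.Results.MP_70387e_co.NonRegular

/-- Two distinct cells attack each other if their difference is a nonzero integer multiple of a
nonzero vector with entries in `{-1, 0, 1}`. -/
def Attack (x y : Fin 3 → ℤ) : Prop :=
  x ≠ y ∧ ∃ (t : ℤ) (v : Fin 3 → ℤ), t ≠ 0 ∧ v ≠ 0 ∧
    (∀ i, v i = -1 ∨ v i = 0 ∨ v i = 1) ∧ y - x = t • v

/-- `S` is a solution of the `(n,3)`-queens problem: `n^2` pairwise non-attacking cells of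
`[n]^3`, `[n] = {1, ..., n}`. -/
def IsSolution (n : ℕ) (S : Finset (Fin 3 → ℤ)) : Prop :=
  (∀ x ∈ S, ∀ i, 1 ≤ x i ∧ x i ≤ n) ∧ S.card = n ^ 2 ∧
    ∀ x ∈ S, ∀ y ∈ S, x ≠ y → ¬ Attack x y

/-- `S` is regular: its third coordinate is an affine function of the first two modulo `n`. -/
def Regular (n : ℕ) (S : Finset (Fin 3 → ℤ)) : Prop :=
  ∃ a b c : ℤ, ∀ x ∈ S, x 2 ≡ a * x 0 + b * x 1 + c [ZMOD n]

/-- the function -/
def F (m N i j : ℤ) : ℤ :=
  m * ((2 * (i / m) + 4 * (j / m) + (if i % m = 0 ∧ j % m = 0 then 1 else 0)) % N) +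
    (2 * i + 4 * j) % m

lemma cop_aux {m w : ℤ} (hm : IsCoprime m 210) (h1 : -7 ≤ w) (h2 : w ≤ 7) (h3 : w ≠ 0) :
    IsCoprime m w := by
  have h4 : IsCoprime m (210 ^ 2) := hm.pow_right
  apply IsCoprime.of_isCoprime_of_dvd_right h4
  interval_cases w <;> first | exact absurd rfl h3 | decide

lemma F_range {m N : ℤ} (hm : 0 < m) (hN : 0 < N) (i j : ℤ) :
    0 ≤ F m N i j ∧ F m N i j < m * N := by
  unfold F
  set q := (2 * (i / m) + 4 * (j / m) + (if i % m = 0 ∧ j % m = 0 then 1 else 0)) % N with hq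
  have h1 : 0 ≤ q := Int.emod_nonneg _ hN.ne'
  have h2 : q < N := Int.emod_lt_of_pos _ hN
  have h3 := Int.emod_nonneg (2 * i + 4 * j) hm.ne'
  have h4 := Int.emod_lt_of_pos (2 * i + 4 * j) hm
  constructor
  · positivity
  · nlinarith

lemma F_modEq (m N i j : ℤ) : m ∣ F m N i j - (2 * i + 4 * j) := by
  unfold F
  have h := Int.emod_add_mul_ediv (2 * i + 4 * j) m
  refine ⟨(2 * (i / m) + 4 * (j / m) + (if i % m = 0 ∧ j % m = 0 then 1 else 0)) % N -
    (2 * i + 4 * j) / m, ?_⟩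
  linear_combination h

lemma no_attack {m N : ℤ} (hm : 0 < m) (hN : 0 < N) (hm2 : IsCoprime m 210)
    (hN2 : IsCoprime N 210) {i j i' j' t v0 v1 v2 : ℤ}
    (hi : 0 ≤ i ∧ i < m * N) (hj : 0 ≤ j ∧ j < m * N)
    (hi' : 0 ≤ i' ∧ i' < m * N) (hj' : 0 ≤ j' ∧ j' < m * N)
    (ht : t ≠ 0) (hv0 : v0 = -1 ∨ v0 = 0 ∨ v0 = 1) (hv1 : v1 = -1 ∨ v1 = 0 ∨ v1 = 1)
    (hv2 : v2 = -1 ∨ v2 = 0 ∨ v2 = 1) (hv : ¬ (v0 = 0 ∧ v1 = 0 ∧ v2 = 0))
    (h0 : i' - i = t * v0) (h1 : j' - j = t * v1) (h2 : F m N i' j' - F m N i j = t * v2) :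
    False := by
  have hw1 : -7 ≤ 2 * v0 + 4 * v1 - v2 := by omega
  have hw2 : 2 * v0 + 4 * v1 - v2 ≤ 7 := by omega
  have hw3 : 2 * v0 + 4 * v1 - v2 ≠ 0 := by omega
  have hdm : m ∣ t := by
    have h3 : m ∣ t * (2 * v0 + 4 * v1 - v2) := by
      have h4 := F_modEq m N i j
      have h5 := F_modEq m N i' j'
      have h6 := dvd_sub h4 h5
      have h7 : t * (2 * v0 + 4 * v1 - v2) = F m N i j - (2 * i + 4 * j) -
          (F m N i' j' - (2 * i' + 4 * j')) := by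
        linear_combination (-2) * h0 - 4 * h1 + h2
      rw [h7]; exact h6
    exact (cop_aux hm2 hw1 hw2 hw3).dvd_of_dvd_mul_right h3
  obtain ⟨s, rfl⟩ := hdm
  have hi2 : i' = i + (s * v0) * m := by linear_combination h0
  have hj2 : j' = j + (s * v1) * m := by linear_combination h1
  have hq : (2 * (i' / m) + 4 * (j' / m) + (if i' % m = 0 ∧ j' % m = 0 then 1 else 0)) % N -
      (2 * (i / m) + 4 * (j / m) + (if i % m = 0 ∧ j % m = 0 then 1 else 0)) % N = s * v2 := by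
    have h3 : (2 * i' + 4 * j') % m = (2 * i + 4 * j) % m := by
      rw [hi2, hj2]
      have : 2 * (i + s * v0 * m) + 4 * (j + s * v1 * m) = (2 * i + 4 * j) +
          (2 * s * v0 + 4 * s * v1) * m := by ring
      rw [this, Int.add_mul_emod_self_right]
    unfold F at h2
    rw [h3] at h2
    have h4 : m * ((2 * (i' / m) + 4 * (j' / m) +
      (if i' % m = 0 ∧ j' % m = 0 then 1 else 0)) % N -
      (2 * (i / m) + 4 * (j / m) + (if i % m = 0 ∧ j % m = 0 then 1 else 0)) % N) =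
      m * (s * v2) := by linear_combination h2
    exact mul_left_cancel₀ hm.ne' h4
  have hdi : i' / m = i / m + s * v0 := by
    rw [hi2, Int.add_mul_ediv_right _ _ hm.ne']
  have hdj : j' / m = j / m + s * v1 := by
    rw [hj2, Int.add_mul_ediv_right _ _ hm.ne']
  have hmi : i' % m = i % m := by
    rw [hi2, Int.add_mul_emod_self_right]
  have hmj : j' % m = j % m := by
    rw [hj2, Int.add_mul_emod_self_right]
  rw [hmi, hmj] at hq
  set c : ℤ := if i % m = 0 ∧ j % m = 0 then 1 else 0 with hc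
  have hdN : N ∣ s := by
    have h3 : N ∣ s * (2 * v0 + 4 * v1 - v2) := by
      have h4 := Int.emod_add_mul_ediv (2 * (i' / m) + 4 * (j' / m) + c) N
      have h5 := Int.emod_add_mul_ediv (2 * (i / m) + 4 * (j / m) + c) N
      refine ⟨(2 * (i' / m) + 4 * (j' / m) + c) / N - (2 * (i / m) + 4 * (j / m) + c) / N, ?_⟩
      rw [mul_sub]
      linear_combination h5 - h4 + hq - 2 * hdi - 4 * hdj
    exact (cop_aux hN2 hw1 hw2 hw3).dvd_of_dvd_mul_right h3
  obtain ⟨r, rfl⟩ := hdN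
  have hr : r ≠ 0 := by
    rintro rfl
    exact ht (by ring)
  have key : ∀ a b v : ℤ, 0 ≤ a → a < N → 0 ≤ b → b < N → b - a = N * r * v → v = 0 := by
    intro a b v ha ha' hb hb' h
    by_contra hv
    have h3 : r * v ≠ 0 := mul_ne_zero hr hv
    have h4 : 1 ≤ |r * v| := Int.one_le_abs h3
    have h5 : |b - a| = N * |r * v| := by
      rw [h, mul_assoc, abs_mul, abs_of_pos hN]
    have h6 : |b - a| < N := by
      rw [abs_lt]; constructor <;> linarith
    nlinarith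
  have hdiv : ∀ a : ℤ, 0 ≤ a ∧ a < m * N → 0 ≤ a / m ∧ a / m < N := by
    intro a ha
    constructor
    · exact Int.ediv_nonneg ha.1 hm.le
    · apply Int.ediv_lt_of_lt_mul hm
      linarith [ha.2, mul_comm m N]
  have e0 : v0 = 0 := key (i / m) (i' / m) v0 (hdiv i hi).1 (hdiv i hi).2 (hdiv i' hi').1
    (hdiv i' hi').2 (by rw [hdi]; ring)
  have e1 : v1 = 0 := key (j / m) (j' / m) v1 (hdiv j hj).1 (hdiv j hj).2 (hdiv j' hj').1
    (hdiv j' hj').2 (by rw [hdj]; ring)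
  have e2 : v2 = 0 := key _ _ v2 (Int.emod_nonneg _ hN.ne') (Int.emod_lt_of_pos _ hN)
    (Int.emod_nonneg _ hN.ne') (Int.emod_lt_of_pos _ hN) hq
  exact hv ⟨e0, e1, e2⟩

/-- the solution -/
def sol (m N : ℕ) : Finset (Fin 3 → ℤ) :=
  (Finset.range (m * N) ×ˢ Finset.range (m * N)).image
    fun p => ![(p.1 : ℤ) + 1, (p.2 : ℤ) + 1, F m N p.1 p.2 + 1]

lemma sol_isSolution {m N : ℕ} (hm : 1 < m) (hN : 1 < N) (h : Nat.Coprime (m * N) 210) :
    IsSolution (m * N) (sol m N) := by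
  have hm' : (0 : ℤ) < m := by omega
  have hN' : (0 : ℤ) < N := by omega
  have hcm : IsCoprime (m : ℤ) 210 := by
    have := Nat.isCoprime_iff_coprime.mpr (Nat.Coprime.coprime_mul_right h)
    exact_mod_cast this
  have hcN : IsCoprime (N : ℤ) 210 := by
    have := Nat.isCoprime_iff_coprime.mpr (Nat.Coprime.coprime_mul_left h)
    exact_mod_cast this
  refine ⟨?_, ?_, ?_⟩
  · intro x hx i
    unfold sol at hx
    rw [Finset.mem_image] at hx
    obtain ⟨⟨a, b⟩, hab, rfl⟩ := hx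
    rw [Finset.mem_product, Finset.mem_range, Finset.mem_range] at hab
    obtain ⟨h1, h2⟩ := hab
    have h3 := F_range hm' hN' a b
    push_cast
    have h1' : (a : ℤ) < m * N := by exact_mod_cast h1
    have h2' : (b : ℤ) < m * N := by exact_mod_cast h2
    fin_cases i
    · show (1 : ℤ) ≤ (a : ℤ) + 1 ∧ (a : ℤ) + 1 ≤ m * N
      omega
    · show (1 : ℤ) ≤ (b : ℤ) + 1 ∧ (b : ℤ) + 1 ≤ m * N
      omega
    · show (1 : ℤ) ≤ F m N a b + 1 ∧ F m N a b + 1 ≤ m * N
      omega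
  · unfold sol
    rw [Finset.card_image_of_injective, Finset.card_product, Finset.card_range]
    · ring
    · rintro ⟨a, b⟩ ⟨c, d⟩ h
      have h1 := congrFun h 0
      have h2 := congrFun h 1
      simp only [Matrix.cons_val_zero, Matrix.cons_val_one] at h1 h2
      have h3 : a = c := by
        have : (a : ℤ) + 1 = c + 1 := h1
        omega
      have h4 : b = d := by
        have : (b : ℤ) + 1 = d + 1 := h2
        omega
      rw [h3, h4]
  · intro x hx y hy _ hatt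
    unfold sol at hx hy
    rw [Finset.mem_image] at hx hy
    obtain ⟨⟨a, b⟩, hab, rfl⟩ := hx
    obtain ⟨⟨c, d⟩, hcd, rfl⟩ := hy
    rw [Finset.mem_product, Finset.mem_range, Finset.mem_range] at hab hcd
    obtain ⟨_, t, v, ht, hv, hvv, heq⟩ := hatt
    have h0 := congrFun heq 0
    have h1 := congrFun heq 1
    have h2 := congrFun heq 2
    simp only [Pi.sub_apply, Pi.smul_apply, smul_eq_mul] at h0 h1 h2
    have h0' : ((c : ℤ) + 1) - (a + 1) = t * v 0 := h0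
    have h1' : ((d : ℤ) + 1) - (b + 1) = t * v 1 := h1
    have h2' : (F m N c d + 1) - (F m N a b + 1) = t * v 2 := h2
    refine no_attack hm' hN' hcm hcN (i := a) (j := b) (i' := c) (j' := d) ?_ ?_ ?_ ?_ ht
      (hvv 0) (hvv 1) (hvv 2) ?_ (by linarith) (by linarith) (by linarith)
    · exact ⟨by omega, by exact_mod_cast hab.1⟩
    · exact ⟨by omega, by exact_mod_cast hab.2⟩
    · exact ⟨by omega, by exact_mod_cast hcd.1⟩
    · exact ⟨by omega, by exact_mod_cast hcd.2⟩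
    · rintro ⟨e0, e1, e2⟩
      apply hv
      funext i
      fin_cases i
      · exact e0
      · exact e1
      · exact e2

lemma sol_not_regular {m N : ℕ} (hm : 1 < m) (hN : 1 < N) (h : Nat.Coprime (m * N) 210) :
    ¬ Regular (m * N) (sol m N) := by
  have hm4 : 4 < m := by
    by_contra hcon
    have h1 : Nat.Coprime m 210 := Nat.Coprime.coprime_mul_right h
    have h2 : m ≤ 4 := by omega
    interval_cases m <;> revert h1 <;> decide
  have hbig : 3 ≤ m * N := by nlinarith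
  rintro ⟨a, b, c, hreg⟩
  have hmem : ∀ i : ℕ, i < 3 → ![(i : ℤ) + 1, ((0 : ℕ) : ℤ) + 1, F m N i (0 : ℕ) + 1] ∈
      sol m N := by
    intro i hi
    unfold sol
    rw [Finset.mem_image]
    exact ⟨(i, 0), Finset.mem_product.mpr ⟨Finset.mem_range.mpr (by simp only; omega),
      Finset.mem_range.mpr (by simp only; omega)⟩, rfl⟩
  have e0 := hreg _ (hmem 0 (by norm_num))
  have e1 := hreg _ (hmem 1 (by norm_num))
  have e2 := hreg _ (hmem 2 (by norm_num))
  have f0 : F m N ((0 : ℕ) : ℤ) ((0 : ℕ) : ℤ) = m := by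
    unfold F
    have : (1 : ℤ) % N = 1 := Int.emod_eq_of_lt (by norm_num) (by omega)
    simp [this]
  have f1 : F m N ((1 : ℕ) : ℤ) ((0 : ℕ) : ℤ) = 2 := by
    unfold F
    have h1 : (1 : ℤ) / m = 0 := Int.ediv_eq_zero_of_lt (by norm_num) (by omega)
    have h2 : (1 : ℤ) % m = 1 := Int.emod_eq_of_lt (by norm_num) (by omega)
    have h3 : (2 : ℤ) % m = 2 := Int.emod_eq_of_lt (by norm_num) (by omega)
    simp [h1, h2, h3]
  have f2 : F m N ((2 : ℕ) : ℤ) ((0 : ℕ) : ℤ) = 4 := by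
    unfold F
    have h1 : (2 : ℤ) / m = 0 := Int.ediv_eq_zero_of_lt (by norm_num) (by omega)
    have h2 : (2 : ℤ) % m = 2 := Int.emod_eq_of_lt (by norm_num) (by omega)
    have h3 : (4 : ℤ) % m = 4 := Int.emod_eq_of_lt (by norm_num) (by omega)
    simp [h1, h2, h3]
  rw [f0] at e0
  rw [f1] at e1
  rw [f2] at e2
  have g0 : (m : ℤ) + 1 ≡ a * (((0 : ℕ) : ℤ) + 1) + b * (((0 : ℕ) : ℤ) + 1) + c
    [ZMOD ((m * N : ℕ) : ℤ)] := e0
  have g1 : (2 : ℤ) + 1 ≡ a * (((1 : ℕ) : ℤ) + 1) + b * (((0 : ℕ) : ℤ) + 1) + c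
    [ZMOD ((m * N : ℕ) : ℤ)] := e1
  have g2 : (4 : ℤ) + 1 ≡ a * (((2 : ℕ) : ℤ) + 1) + b * (((0 : ℕ) : ℤ) + 1) + c
    [ZMOD ((m * N : ℕ) : ℤ)] := e2
  rw [Int.modEq_iff_dvd] at g0 g1 g2
  have h3 := dvd_add (dvd_sub g1 g0) (dvd_sub g1 g2)
  have h4 : ((m * N : ℕ) : ℤ) ∣ m := by
    have h5 : (m : ℤ) = (a * (((1 : ℕ) : ℤ) + 1) + b * (((0 : ℕ) : ℤ) + 1) + c - (2 + 1) -
      (a * (((0 : ℕ) : ℤ) + 1) + b * (((0 : ℕ) : ℤ) + 1) + c - (m + 1))) +
      (a * (((1 : ℕ) : ℤ) + 1) + b * (((0 : ℕ) : ℤ) + 1) + c - (2 + 1) -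
      (a * (((2 : ℕ) : ℤ) + 1) + b * (((0 : ℕ) : ℤ) + 1) + c - (4 + 1))) := by
      push_cast; ring
    rw [h5]
    exact h3
  have h5 : m * N ∣ m := by exact_mod_cast h4
  have h6 := Nat.le_of_dvd (by omega) h5
  nlinarith

/-- For all `m, N > 1` with `m N` coprime to `210`, the `(m N, 3)`-queens problem has a
non-regular solution. In particular non-regular solutions exist (for example for `n = 121`). -/
theorem result :
    (∃ n : ℕ, 1 ≤ n ∧ ∃ S, IsSolution n S ∧ ¬ Regular n S) ∧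
    (∀ m N : ℕ, 1 < m → 1 < N → Nat.Coprime (m * N) 210 →
      ∃ S, IsSolution (m * N) S ∧ ¬ Regular (m * N) S) := by
  refine ⟨⟨11 * 11, by norm_num, sol 11 11, ?_, ?_⟩, ?_⟩
  · exact sol_isSolution (by norm_num) (by norm_num) (by norm_num)
  · exact sol_not_regular (by norm_num) (by norm_num) (by norm_num)
  · intro m N hm hN h
    exact ⟨sol m N, sol_isSolution hm hN h, sol_not_regular hm hN h⟩

end Pool.Agent.Results.MP_70387e_co.NonRegular
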